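import Pool.Agent.helper90.IV.Spec

/-!
# MP_26dbae_co: BC, the number of bases
-/

set_option autoImplicit false

open scoped BigOperators

namespace Pool.Agent.helper92.IV

open Pool.Agent.helper23.TH Pool.Agent.KS Pool.Agent.IV

noncomputable section

open Classical

/-- maps on `J` with the constraint between `i` and its parent for all `i ∈ S` -/
def Hs {J V : Type} [Fintype J] [Fintype V] (A : V → V → Prop) (p : J → Option J) (S : Finset J) :
    Finset (J → V) :=
  Finset.univ.filter fun f => ∀ i ∈ S, ∀ j, p i = some j → A (f i) (f j)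

/-- one more constraint -/
lemma step {J V : Type} [Fintype J] [Fintype V] (A : V → V → Prop) (Δ : ℝ)
    (hsym : ∀ a b, A a b → A b a) (hdeg : ∀ v, (deg A v : ℝ) ≤ Δ) (p : J → Option J) (rk : J → ℕ)
    (hlt : ∀ i j, p i = some j → rk j < rk i) (S : Finset J) (a : J) (ha : a ∉ S)
    (hmax : ∀ x ∈ S, rk x ≤ rk a) (j : J) (hj : p a = some j) :
    ((Hs A p (insert a S)).card : ℝ) * (Fintype.card V : ℝ) ≤ ((Hs (V := V) A p S).card : ℝ) * Δ := by
  have hja : j ≠ a := by
    intro h
    have := hlt a j hj
    rw [h] at this
    exact lt_irrefl _ this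
  have hpa : ∀ i ∈ S, p i ≠ some a := by
    intro i hi h
    have h1 := hlt i a h
    have h2 := hmax i hi
    omega
  -- pairs
  have h1 : (Hs A p (insert a S)).card * Fintype.card V ≤
      ∑ g ∈ Hs (V := V) A p S, deg A (g j) := by
    have e1 : (Hs A p (insert a S)).card * Fintype.card V
        = ((Hs A p (insert a S)) ×ˢ (Finset.univ : Finset V)).card := by
      rw [Finset.card_product, Finset.card_univ]
    have e2 : ∑ g ∈ Hs (V := V) A p S, deg A (g j)
        = ((Hs (V := V) A p S).sigma fun g => Finset.univ.filter fun m : V => A (g j) m).card := by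
      rw [Finset.card_sigma]
      rfl
    rw [e1, e2]
    refine Finset.card_le_card_of_injOn
      (fun q => (⟨Function.update q.1 a q.2, q.1 a⟩ : Σ _ : J → V, V)) ?_ ?_
    · intro q hq
      simp only [Finset.coe_product, Set.mem_prod, Finset.mem_coe, Finset.mem_univ, and_true] at hq
      simp only [Finset.coe_sigma, Set.mem_sigma_iff, Finset.mem_coe, Finset.mem_filter,
        Finset.mem_univ, true_and]
      have hq' : ∀ i ∈ insert a S, ∀ j, p i = some j → A (q.1 i) (q.1 j) := by
        have := hq
        simp only [Hs, Finset.mem_filter, Finset.mem_univ, true_and] at this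
        exact this
      constructor
      · simp only [Hs, Finset.mem_filter, Finset.mem_univ, true_and]
        intro i hi k hk
        have hia : i ≠ a := fun h => ha (h ▸ hi)
        have hka : k ≠ a := by
          intro h
          exact hpa i hi (h ▸ hk)
        rw [Function.update_of_ne hia, Function.update_of_ne hka]
        exact hq' i (Finset.mem_insert_of_mem hi) k hk
      · rw [Function.update_of_ne hja]
        exact hsym _ _ (hq' a (Finset.mem_insert_self _ _) j hj)
    · intro q _ q' _ h
      simp only [Sigma.mk.injEq, heq_eq_eq] at h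
      obtain ⟨h1, h2⟩ := h
      have h3 : q.2 = q'.2 := by
        have := congrFun h1 a
        simpa using this
      have h4 : q.1 = q'.1 := by
        funext i
        by_cases hi : i = a
        · rw [hi]; exact h2
        · have := congrFun h1 i
          rwa [Function.update_of_ne hi, Function.update_of_ne hi] at this
      exact Prod.ext h4 h3
  have h2 : (((∑ g ∈ Hs (V := V) A p S, deg A (g j) : ℕ)) : ℝ) ≤ ((Hs (V := V) A p S).card : ℝ) * Δ := by
    push_cast
    calc ∑ g ∈ Hs (V := V) A p S, (deg A (g j) : ℝ) ≤ ∑ _g ∈ Hs (V := V) A p S, Δ :=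
          Finset.sum_le_sum fun g _ => hdeg _
      _ = ((Hs (V := V) A p S).card : ℝ) * Δ := by rw [Finset.sum_const, nsmul_eq_mul]
  have h3 : (((Hs A p (insert a S)).card * Fintype.card V : ℕ) : ℝ) ≤
      (((∑ g ∈ Hs (V := V) A p S, deg A (g j) : ℕ)) : ℝ) := by exact_mod_cast h1
  push_cast at h3
  push_cast at h2
  linarith

lemma hs_count {J V : Type} [Fintype J] [Fintype V] (A : V → V → Prop) (Δ : ℝ) (hΔ : 0 < Δ)
    (hsym : ∀ a b, A a b → A b a) (hdeg : ∀ v, (deg A v : ℝ) ≤ Δ) (p : J → Option J) (rk : J → ℕ)
    (hlt : ∀ i j, p i = some j → rk j < rk i) (S : Finset J) :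
    ((Hs (V := V) A p S).card : ℝ) * (Fintype.card V : ℝ) ^ (S.filter fun i => (p i).isSome = true).card ≤
      (Fintype.card V : ℝ) ^ (Fintype.card J) * Δ ^ (S.filter fun i => (p i).isSome = true).card := by
  refine Finset.induction_on_max_value rk S ?_ ?_
  · simp only [Finset.filter_empty, Finset.card_empty, pow_zero, mul_one]
    have : ((Hs (V := V) A p (∅ : Finset J)).card : ℝ) ≤ ((Finset.univ : Finset (J → V)).card : ℝ) := by
      exact_mod_cast Finset.card_le_card (Finset.subset_univ _)
    refine this.trans (le_of_eq ?_)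
    rw [Finset.card_univ, Fintype.card_fun]
    push_cast
    rfl
  · intro a S ha hmax ih
    cases hp : p a with
    | none =>
      have e : (insert a S).filter (fun i => (p i).isSome = true) = S.filter fun i => (p i).isSome = true := by
        rw [Finset.filter_insert]
        simp [hp]
      rw [e]
      refine le_trans ?_ ih
      have : ((Hs (V := V) A p (insert a S)).card : ℝ) ≤ ((Hs (V := V) A p S).card : ℝ) := by
        have : Hs (V := V) A p (insert a S) ⊆ Hs A p S := by
          intro f hf
          simp only [Hs, Finset.mem_filter, Finset.mem_univ, true_and] at hf ⊢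
          exact fun i hi => hf i (Finset.mem_insert_of_mem hi)
        exact_mod_cast Finset.card_le_card this
      exact mul_le_mul_of_nonneg_right this (by positivity)
    | some j =>
      have e : ((insert a S).filter (fun i => (p i).isSome = true)).card
          = (S.filter fun i => (p i).isSome = true).card + 1 := by
        rw [Finset.filter_insert]
        simp only [hp, Option.isSome_some, if_true]
        rw [Finset.card_insert_of_notMem]
        simp [ha]
      rw [e, pow_succ, pow_succ]
      have h := step A Δ hsym hdeg p rk hlt S a ha hmax j hp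
      have hn : (0 : ℝ) ≤ (Fintype.card V : ℝ) ^ (S.filter fun i => (p i).isSome = true).card := by positivity
      calc ((Hs (V := V) A p (insert a S)).card : ℝ) *
            ((Fintype.card V : ℝ) ^ (S.filter fun i => (p i).isSome = true).card * (Fintype.card V : ℝ))
          = (((Hs (V := V) A p (insert a S)).card : ℝ) * (Fintype.card V : ℝ)) *
            (Fintype.card V : ℝ) ^ (S.filter fun i => (p i).isSome = true).card := by ring
        _ ≤ (((Hs (V := V) A p S).card : ℝ) * Δ) *
            (Fintype.card V : ℝ) ^ (S.filter fun i => (p i).isSome = true).card :=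
              mul_le_mul_of_nonneg_right h hn
        _ = (((Hs (V := V) A p S).card : ℝ) *
            (Fintype.card V : ℝ) ^ (S.filter fun i => (p i).isSome = true).card) * Δ := by ring
        _ ≤ ((Fintype.card V : ℝ) ^ (Fintype.card J) *
            Δ ^ (S.filter fun i => (p i).isSome = true).card) * Δ :=
              mul_le_mul_of_nonneg_right ih hΔ.le
        _ = _ := by ring

/-- the parent in the forest of the vertices of `W` and the live slots -/
def pf {I : Type} (T : Tr I) (gh : T.R → Option I) (W : Finset I) :
    ({w // w ∈ W} ⊕ {r : T.R // gh r = none}) → Option ({w // w ∈ W} ⊕ {r : T.R // gh r = none})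
  | .inl w => (T.par w.1).bind fun j => if h : j ∈ W then some (.inl ⟨j, h⟩) else none
  | .inr r => if h : r.1.1 ∈ W then some (.inl ⟨r.1.1, h⟩) else none

/-- the rank -/
def rf {I : Type} (T : Tr I) (gh : T.R → Option I) (W : Finset I) :
    ({w // w ∈ W} ⊕ {r : T.R // gh r = none}) → ℕ
  | .inl w => T.rk w.1
  | .inr r => T.rk r.1.1 + 1

lemma pf_inl {I : Type} (T : Tr I) (gh : T.R → Option I) (W : Finset I) (w : {w // w ∈ W})
    (t : {w // w ∈ W} ⊕ {r : T.R // gh r = none}) (h : pf T gh W (.inl w) = some t) :
    ∃ j : {w // w ∈ W}, t = .inl j ∧ T.par w.1 = some j.1 := by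
  unfold pf at h
  cases hp : T.par w.1 with
  | none => simp [hp] at h
  | some j =>
    simp only [hp, Option.bind_some] at h
    by_cases hj : j ∈ W
    · simp only [hj, dite_true, Option.some.injEq] at h
      exact ⟨⟨j, hj⟩, h.symm, rfl⟩
    · simp [hj] at h

lemma pf_inr {I : Type} (T : Tr I) (gh : T.R → Option I) (W : Finset I) (r : {r : T.R // gh r = none})
    (t : {w // w ∈ W} ⊕ {r : T.R // gh r = none}) (h : pf T gh W (.inr r) = some t) :
    ∃ j : {w // w ∈ W}, t = .inl j ∧ r.1.1 = j.1 := by
  unfold pf at h
  by_cases hj : r.1.1 ∈ W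
  · simp only [hj, dite_true, Option.some.injEq] at h
    exact ⟨⟨r.1.1, hj⟩, h.symm, rfl⟩
  · simp [hj] at h

lemma pf_some {I : Type} [Fintype I] (T : Tr I) (gh : T.R → Option I) (W : Finset I) :
    ((Finset.univ : Finset ({w // w ∈ W} ⊕ {r : T.R // gh r = none})).filter
      fun i => (pf T gh W i).isSome = true).card = eB T gh W := by
  have h0 : ((Finset.univ : Finset ({w // w ∈ W} ⊕ {r : T.R // gh r = none})).filter
      fun i => (pf T gh W i).isSome = true).card
      = ((Finset.univ : Finset {w // w ∈ W}).filter fun w => (pf T gh W (.inl w)).isSome = true).card +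
        ((Finset.univ : Finset {r : T.R // gh r = none}).filter
          fun r => (pf T gh W (.inr r)).isSome = true).card := by
    simp only [Finset.card_filter]
    rw [Fintype.sum_sum_type]
  rw [h0]
  unfold eB
  refine congrArg₂ (· + ·) ?_ ?_
  · refine Finset.card_bij (fun w _ => (w.1, (T.par w.1).getD w.1)) ?_ ?_ ?_
    · intro w hw
      simp only [Finset.mem_filter, Finset.mem_univ, true_and] at hw ⊢
      obtain ⟨t, ht⟩ := Option.isSome_iff_exists.mp hw
      obtain ⟨j, _, hj⟩ := pf_inl T gh W w t ht
      rw [hj]
      exact ⟨rfl, w.2, j.2⟩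
    · intro w _ w' _ h
      exact Subtype.ext (Prod.mk.inj h).1
    · intro e he
      simp only [Finset.mem_filter, Finset.mem_univ, true_and] at he
      refine ⟨⟨e.1, he.2.1⟩, ?_, ?_⟩
      · simp only [Finset.mem_filter, Finset.mem_univ, true_and]
        unfold pf
        simp [he.1, he.2.2]
      · simp only [he.1, Option.getD_some]
  · refine Finset.card_bij (fun r _ => r.1) ?_ ?_ ?_
    · intro r hr
      simp only [Finset.mem_filter, Finset.mem_univ, true_and] at hr ⊢
      obtain ⟨t, ht⟩ := Option.isSome_iff_exists.mp hr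
      obtain ⟨j, _, hj⟩ := pf_inr T gh W r t ht
      exact ⟨r.2, hj ▸ j.2⟩
    · intro r _ r' _ h
      exact Subtype.ext h
    · intro r hr
      simp only [Finset.mem_filter, Finset.mem_univ, true_and] at hr
      refine ⟨⟨r, hr.1⟩, ?_, rfl⟩
      simp only [Finset.mem_filter, Finset.mem_univ, true_and]
      unfold pf
      simp [hr.2]

/-- BC -/
theorem BC : BC_stmt := by
  intro I _ T V _ A Δ gh W hsym hΔ hdeg hgh
  have hc := hs_count A Δ hΔ hsym hdeg (pf T gh W) (rf T gh W) (by
    intro i t ht
    rcases i with w | r
    · obtain ⟨j, rfl, hj⟩ := pf_inl T gh W w t ht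
      exact T.lt _ _ hj
    · obtain ⟨j, rfl, hj⟩ := pf_inr T gh W r t ht
      simp only [rf]
      rw [hj]
      exact Nat.lt_succ_self _) Finset.univ
  rw [pf_some] at hc
  have hJ : Fintype.card ({w // w ∈ W} ⊕ {r : T.R // gh r = none}) = W.card + nl T gh := by
    rw [Fintype.card_sum, Fintype.card_coe, Fintype.card_subtype]
    rfl
  rw [hJ] at hc
  refine le_trans ?_ hc
  have hinj : ((Hm T A gh).image (bs W)).card ≤ (Hs (V := V) A (pf T gh W) Finset.univ).card := by
    refine Finset.card_le_card_of_injOn
      (fun g => Sum.elim g.1 (fun r : {r : T.R // gh r = none} => g.2 r.1)) ?_ ?_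
    · intro g hg
      simp only [Finset.coe_image, Set.mem_image, Finset.mem_coe] at hg
      obtain ⟨f, hf, rfl⟩ := hg
      simp only [Hm, Finset.mem_filter, Finset.mem_univ, true_and] at hf
      simp only [Finset.mem_coe, Hs, Finset.mem_filter, Finset.mem_univ, true_and]
      intro i _ t ht
      rcases i with w | r
      · obtain ⟨j, rfl, hj⟩ := pf_inl T gh W w t ht
        simp only [Sum.elim_inl, bs]
        exact hf.1.1 _ _ hj
      · obtain ⟨j, rfl, hj⟩ := pf_inr T gh W r t ht
        simp only [Sum.elim_inl, Sum.elim_inr, bs]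
        rw [← hj]
        exact hsym _ _ (hf.1.2 r.1)
    · intro g hg g' hg' h
      simp only [Finset.coe_image, Set.mem_image, Finset.mem_coe] at hg hg'
      obtain ⟨f, hf, rfl⟩ := hg
      obtain ⟨f', hf', rfl⟩ := hg'
      simp only [Hm, Finset.mem_filter, Finset.mem_univ, true_and] at hf hf'
      have hx : ∀ w : {w // w ∈ W}, f.1 w.1 = f'.1 w.1 := fun w => by
        have := congrFun h (.inl w)
        simpa [bs] using this
      have hy : ∀ r : {r : T.R // gh r = none}, f.2 r.1 = f'.2 r.1 := fun r => by
        have := congrFun h (.inr r)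
        simpa [bs] using this
      refine Prod.ext (funext hx) (funext fun r => ?_)
      show f.2 r = f'.2 r
      cases hr : gh r with
      | none => exact hy ⟨r, hr⟩
      | some w =>
        rw [hf.2 r w hr, hf'.2 r w hr]
        exact hx ⟨w, hgh r w hr⟩
  have h1 : (((Hm T A gh).image (bs W)).card : ℝ) ≤ ((Hs (V := V) A (pf T gh W) Finset.univ).card : ℝ) := by
    exact_mod_cast hinj
  exact mul_le_mul_of_nonneg_right h1 (by positivity)

end

end Pool.Agent.helper92.IV
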